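import Pool.Agent.KS6_29.PW.Fin
import Pool.Graph.R_seed8.W700.KK.Fin

/-!
# Powers of the algebra of approximable operators

For a Banach space `E` let `F(E)` be the algebra of approximable operators and `F(E)ⁿ` the linear span of
the products of `n` elements of `F(E)`.  Let `E` contain an isomorphic copy of `ℓ₂`, and let all finite
rank operators `a` on `E` satisfy `π₂(a) ≤ C ‖a‖`; there are separable spaces of this kind.  Then the
powers `F(E)ⁿ` decrease strictly, all quotients `F(E)ⁿ / F(E)ⁿ⁺¹` have dimension at least continuum, and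
for generic `a ∈ F(E)` no power `aⁿ` lies in `F(E)ⁿ⁺¹`.
-/

set_option autoImplicit false

namespace Pool.Agent.Results.MP_d957af_an.PowersStrictlyDecrease

section
variable (E : Type) [NormedAddCommGroup E] [NormedSpace ℂ E]

/-- `F(E)`, the approximable operators: the operator norm closure of the (span of the) bounded operators
with finite-dimensional range. -/
noncomputable def approximable : Submodule ℂ (E →L[ℂ] E) :=
  (Submodule.span ℂ
    {S : E →L[ℂ] E | FiniteDimensional ℂ (LinearMap.range (S : E →ₗ[ℂ] E))}).topologicalClosure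

/-- `K(E)`, the compact operators. -/
noncomputable def compact : Submodule ℂ (E →L[ℂ] E) where
  carrier := {S | IsCompactOperator S}
  add_mem' h1 h2 := h1.add h2
  zero_mem' := isCompactOperator_zero
  smul_mem' c _ h := h.smul c

variable {E}

/-- `π₂(a) ≤ C`: the operator `a` is 2-summing with constant at most `C`. -/
def TwoSumming (C : ℝ) (a : E →L[ℂ] E) : Prop :=
  ∀ (n : ℕ) (x : Fin n → E),
    (∀ t : Fin n → ℂ, ‖∑ j, t j • x j‖ ≤ Real.sqrt (∑ j, ‖t j‖ ^ 2)) →
      Real.sqrt (∑ j, ‖a (x j)‖ ^ 2) ≤ C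

variable (E)

/-- `E` contains an isomorphic copy of `ℓ₂`, and `π₂(a) ≤ C ‖a‖` for all finite rank operators `a`. -/
structure Hyp : Prop where
  copy : ∃ (ψ : lp (fun _ : ℕ => ℂ) 2 →L[ℂ] E) (c : ℝ), 0 < c ∧ ∀ h, c * ‖h‖ ≤ ‖ψ h‖
  summing : ∃ C : ℝ, ∀ a : E →L[ℂ] E, FiniteDimensional ℂ (LinearMap.range (a : E →ₗ[ℂ] E)) →
    TwoSumming (C * ‖a‖) a

/-- `a ∈ F(E)` is bad if `aⁿ` is not a linear combination of products of `n + 1` elements of `F(E)`, for
every `n ≥ 1`. -/
def Bad (a : E →L[ℂ] E) : Prop :=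
  a ∈ approximable E ∧ ∀ n : ℕ, 1 ≤ n → a ^ n ∉ approximable E ^ (n + 1)

/-- The conclusions. -/
structure Concl : Prop where
  /-- `F(E)² ≠ F(E)` -/
  sq_ne : approximable E ^ 2 ≠ approximable E
  /-- the powers decrease strictly -/
  lt : ∀ n : ℕ, 1 ≤ n → approximable E ^ (n + 1) < approximable E ^ n
  /-- the quotients of consecutive powers have dimension at least continuum -/
  rank : ∀ n : ℕ, 1 ≤ n → Cardinal.continuum ≤ Module.rank ℂ
    (↥(approximable E ^ n) ⧸ (approximable E ^ (n + 1)).submoduleOf (approximable E ^ n))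
  /-- exactly continuum if `E` is separable -/
  rank_eq : TopologicalSpace.SeparableSpace E → ∀ n : ℕ, 1 ≤ n → Module.rank ℂ
    (↥(approximable E ^ n) ⧸ (approximable E ^ (n + 1)).submoduleOf (approximable E ^ n)) =
      Cardinal.continuum
  /-- the bad elements are comeagre in `F(E)` -/
  generic : {a : ↥(approximable E) | Bad E a} ∈ residual ↥(approximable E)
  /-- there is a closed subspace, isomorphic to `ℓ₂`, all of whose nonzero elements are bad -/
  subspace : ∃ Z : Submodule ℂ (E →L[ℂ] E), IsClosed (Z : Set (E →L[ℂ] E)) ∧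
    Nonempty (Z ≃L[ℂ] lp (fun _ : ℕ => ℂ) 2) ∧ ∀ a ∈ Z, a ≠ 0 → Bad E a
  /-- there is a discontinuous linear functional on `F(E)` vanishing on all products -/
  functional : ∃ φ : ↥(approximable E) →ₗ[ℂ] ℂ, ¬ Continuous φ ∧
    ∀ c : ↥(approximable E), (∃ a ∈ approximable E, ∃ b ∈ approximable E,
      (c : E →L[ℂ] E) = a * b) → φ c = 0

end

open W700.PS in
theorem approx_eq (E : Type) [NormedAddCommGroup E] [NormedSpace ℂ E] :
    approximable E = (FRk E).topologicalClosure := by
  unfold approximable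
  rw [← FRk_eq, Submodule.span_eq]

open W700.PS Pool.Agent.KS6_29.PW in
theorem criterion (E : Type) [NormedAddCommGroup E] [NormedSpace ℂ E] [CompleteSpace E]
    (h : Hyp E) : Concl E := by
  obtain ⟨ψ, c, hc, hψ⟩ := h.copy
  obtain ⟨P⟩ := exists_cop ψ hc hψ
  obtain ⟨C₀, hC₀⟩ := h.summing
  set C : ℝ := max C₀ 0 with hCdef
  have hC : 0 ≤ C := le_max_right _ _
  have hA : ∀ a ∈ (FRk E).topologicalClosure, PiB (C * ‖a‖) a := by
    intro a ha n x hx
    have hcl : IsClosed {a : E →L[ℂ] E | Real.sqrt (∑ j, ‖a (x j)‖ ^ 2) ≤ C * ‖a‖} := by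
      refine isClosed_le ?_ (continuous_const.mul continuous_norm)
      refine Real.continuous_sqrt.comp (continuous_finsetSum _ fun j _ => ?_)
      exact (((ContinuousLinearMap.apply ℂ E (x j)).continuous).norm).pow 2
    refine closure_minimal ?_ hcl ha
    intro b hb
    have h1 := hC₀ b (fin_of_mem_FRk b hb) n x hx
    refine h1.trans ?_
    exact mul_le_mul_of_nonneg_right (le_max_left _ _) (norm_nonneg _)
  have hfun := exists_disc P hC hA
  have hsub := exists_subspace P hC hA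
  have hgen := residual_bad P hC hA
  have hrk : ∀ n : ℕ, 1 ≤ n → _ := fun n hn =>
    le_rank P hC hA (Nat.one_le_iff_ne_zero.1 hn)
  have hone : ∀ j : ℕ, ‖(1 : ℕ → ℂ) j‖ ≤ 1 := fun j => by simp
  have hbad : ∀ n : ℕ, (TT P 1) ^ n ∉ (FRk E).topologicalClosure ^ (n + 1) := fun n =>
    not_mem_pow (P := P) hC hA (n := n) Set.infinite_univ one_pos
      (fun j _ => ⟨_, (acts_TT P hone j).pow n, by rw [norm_wt]; simp⟩)
  have hmem : TT P 1 ∈ (FRk E).topologicalClosure := TT_mem P hone
  have hlt : ∀ n : ℕ, 1 ≤ n →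
      (FRk E).topologicalClosure ^ (n + 1) < (FRk E).topologicalClosure ^ n := by
    intro n hn
    refine lt_of_le_of_ne (pow_succ_le n (Nat.one_le_iff_ne_zero.1 hn)) fun heq => ?_
    refine hbad n ?_
    rw [heq]
    exact Submodule.pow_mem_pow _ hmem n
  have hsq : (FRk E).topologicalClosure ^ 2 ≠ (FRk E).topologicalClosure := by
    intro heq
    have h1 := hbad 1
    rw [pow_one] at h1
    exact h1 (by rw [show 1 + 1 = 2 from rfl, heq]; exact hmem)
  have hreq : TopologicalSpace.SeparableSpace E → ∀ n : ℕ, 1 ≤ n → _ := fun hs n hn =>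
    Pool.Agent.KS6_29.PW.rank_eq P hC hA (Nat.one_le_iff_ne_zero.1 hn)
  have key : ∀ A : Submodule ℂ (E →L[ℂ] E), A = (FRk E).topologicalClosure →
      A = approximable E := fun A h => h.trans (approx_eq E).symm
  refine ⟨?_, ?_, ?_, ?_, ?_, ?_, ?_⟩
  · rw [approx_eq]; exact hsq
  · rw [approx_eq]; exact hlt
  · rw [approx_eq]; exact hrk
  · rw [approx_eq]; exact hreq
  · unfold Bad
    rw [approx_eq]
    refine Filter.mem_of_superset hgen ?_
    intro a ha
    exact ⟨a.2, fun n hn => ha n (Nat.one_le_iff_ne_zero.1 hn)⟩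
  · unfold Bad
    rw [approx_eq]
    obtain ⟨Z, hZ1, hZ2, hZ3, hZ4⟩ := hsub
    exact ⟨Z, hZ2, hZ3, fun a ha ha0 => ⟨hZ1 ha, fun n _ => hZ4 a ha ha0 n⟩⟩
  · rw [approx_eq]
    obtain ⟨φ, hφ, hφ2⟩ := hfun
    refine ⟨φ, hφ, ?_⟩
    rintro c ⟨a, ha, b, hb, hcab⟩
    refine hφ2 c ?_
    rw [hcab, sq]
    exact Submodule.mul_mem_mul ha hb

open W700.PS in
theorem exists_space : ∃ (E : Type) (_ : NormedAddCommGroup E) (_ : NormedSpace ℂ E)
    (_ : CompleteSpace E), TopologicalSpace.SeparableSpace E ∧ Hyp E := by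
  obtain ⟨C, hC, hpi⟩ := Pool.Agent.W347.PS.T3.main PP (cotEE SB) (extEE SB)
  refine ⟨PP, inferInstance, inferInstance, inferInstance, inferInstance, ⟨?_, ?_⟩⟩
  · refine ⟨psi.toContinuousLinearMap, 1, one_pos, fun h => ?_⟩
    rw [one_mul]
    exact (psi.norm_map h).ge
  · exact ⟨C, fun a ha => hpi a (subset_closure (mem_FRk a ha))⟩

/-- Every Banach space `E` which contains a copy of `ℓ₂` and satisfies `π₂(a) ≤ C ‖a‖` for all finite rank
`a` has the properties listed in `Concl` (in particular `F(E)ⁿ⁺¹ ≠ F(E)ⁿ` for all `n ≥ 1`); separable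
spaces of this kind exist; and there is a Banach space `E` with `K(E)² ≠ K(E)`. -/
theorem result :
    (∀ (E : Type) [NormedAddCommGroup E] [NormedSpace ℂ E] [CompleteSpace E], Hyp E → Concl E) ∧
    (∃ (E : Type) (_ : NormedAddCommGroup E) (_ : NormedSpace ℂ E) (_ : CompleteSpace E),
      TopologicalSpace.SeparableSpace E ∧ Hyp E ∧ Concl E) ∧
    (∃ (E : Type) (_ : NormedAddCommGroup E) (_ : NormedSpace ℂ E) (_ : CompleteSpace E),
      compact E ^ 2 ≠ compact E) := by
  refine ⟨fun E _ _ _ h => criterion E h, ?_, ?_⟩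
  · obtain ⟨E, i1, i2, i3, h1, h2⟩ := exists_space
    exact ⟨E, i1, i2, i3, h1, h2, criterion E h2⟩
  · obtain ⟨E, i1, i2, i3, T, hT, hT2⟩ := W700.KK.main
    refine ⟨E, i1, i2, i3, fun h => hT2 ?_⟩
    have h1 : T ∈ compact E ^ 2 := by rw [h]; exact hT
    rw [sq] at h1
    refine Submodule.mul_induction_on h1 ?_ ?_
    · intro a ha b hb
      exact Submodule.subset_span ⟨a, b, ha, hb, rfl⟩
    · intro x y hx hy
      exact Submodule.add_mem _ hx hy

end Pool.Agent.Results.MP_d957af_an.PowersStrictlyDecrease
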